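import Pool.Agent.helper12.GoRate

set_option autoImplicit false

namespace Pool.Agent.Results.MP_7325a4_co.GrowthRate

open Filter Pool.Agent.helper12.Go

/-- **Growth of the number of Go games.** There is a constant `c`, `1.514 < c < 1.584`, such that
`log L(n, n) = c n² + O(n)` and `log log N(n) = c n² + O(n)`, where `N(n)` is the number of games
on the `n × n` board, `L(n, n)` the number of its legal positions, and `log` is to base `2`. -/
theorem result : ∃ c : ℝ, 1.514 < c ∧ c < 1.584 ∧
    (fun n : ℕ => Real.logb 2 (legalCount n) - c * (n : ℝ) ^ 2) =O[atTop]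
      (fun n : ℕ => (n : ℝ)) ∧
    (fun n : ℕ => Real.logb 2 (Real.logb 2 (gameCount n)) - c * (n : ℝ) ^ 2) =O[atTop]
      (fun n : ℕ => (n : ℝ)) :=
  growth

end Pool.Agent.Results.MP_7325a4_co.GrowthRate
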